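import Pool.Agent.W586.GZ.Stm

/-!
Project GZ, part INV: bounded below compressions give invertibility.
-/

set_option autoImplicit false
open Filter Topology

namespace Pool.Agent.W91.GZ.INV

open Pool.Agent.W586.GZ

variable {S : Set (ℕ →₀ ℚ)} {X : Type} [NormedAddCommGroup X] [NormedSpace ℝ X]
  {e : ℕ → X} {e' : ℕ → (X →L[ℝ] ℝ)}

lemma coord_sum (hM : Model S X e e') (F : Finset ℕ) (a : ℕ → ℝ) (i : ℕ) :
    e' i (∑ j ∈ F, a j • e j) = if i ∈ F then a i else 0 := by
  classical
  rw [map_sum]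
  simp only [map_smul, smul_eq_mul, hM.bio]
  simp [Finset.sum_ite_eq]

lemma coord_R (R : X →L[ℝ] X) (F : Finset ℕ) (a : ℕ → ℝ) (i : ℕ) :
    e' i (R (∑ j ∈ F, a j • e j)) = ∑ j ∈ F, e' i (R (e j)) * a j := by
  rw [map_sum, map_sum]
  apply Finset.sum_congr rfl
  intro j _
  rw [map_smul, map_smul, smul_eq_mul, mul_comm]

/-- the norm of a finite sum in terms of `cut` -/
lemma norm_sum_le (hM : Model S X e e') (F : Finset ℕ) (a : ℕ → ℝ) (c : ℝ) (hc : 0 ≤ c)
    (h : NB S (cut (↑F) a) c) : ‖∑ j ∈ F, a j • e j‖ ≤ c := by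
  rw [hM.nrm _ _ hc]
  convert h using 1
  funext n
  rw [coord_sum hM]
  unfold cut
  by_cases hn : n ∈ F
  · rw [if_pos hn, Set.indicator_of_mem (by exact_mod_cast hn)]
  · rw [if_neg hn, Set.indicator_of_notMem (by exact_mod_cast hn)]

lemma fin_bound (hS : Idl S) (hM : Model S X e e') (R : X →L[ℝ] X) (K : ℝ) (hK : 0 ≤ K)
    (h : ∀ (F : Finset ℕ) (x : ℕ → ℝ) (b : ℝ), NB S (mv (fun i j => e' i (R (e j))) F x) b →
      NB S (cut (↑F) x) (K * b)) (F : Finset ℕ) (a : ℕ → ℝ) :
    ‖∑ j ∈ F, a j • e j‖ ≤ K * ‖R (∑ j ∈ F, a j • e j)‖ := by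
  set w := ∑ j ∈ F, a j • e j with hw
  have h1 : NB S (fun n => e' n (R w)) ‖R w‖ := (hM.nrm _ _ (norm_nonneg _)).mp le_rfl
  have h2 : NB S (mv (fun i j => e' i (R (e j))) F a) ‖R w‖ := by
    apply NB.le hS h1
    intro i
    by_cases hi : i ∈ F
    · rw [mv_apply_of_mem _ _ _ _ hi, hw, coord_R]
    · rw [mv_apply_of_notMem _ _ _ _ hi]; simp
  exact norm_sum_le hM F a _ (mul_nonneg hK (norm_nonneg _)) (h F a _ h2)

lemma bound (hS : Idl S) (hM : Model S X e e') (R : X →L[ℝ] X) (K : ℝ) (hK : 0 ≤ K)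
    (h : ∀ (F : Finset ℕ) (x : ℕ → ℝ) (b : ℝ), NB S (mv (fun i j => e' i (R (e j))) F x) b →
      NB S (cut (↑F) x) (K * b)) (x : X) : ‖x‖ ≤ K * ‖R x‖ := by
  have h1 := hM.exp x
  have h2 : Tendsto (fun N : ℕ => ‖∑ n ∈ Finset.range N, e' n x • e n‖) atTop (𝓝 ‖x‖) := h1.norm
  have h3 : Tendsto (fun N : ℕ => K * ‖R (∑ n ∈ Finset.range N, e' n x • e n)‖) atTop
      (𝓝 (K * ‖R x‖)) := (((R.continuous.tendsto x).comp h1).norm).const_mul K
  exact le_of_tendsto_of_tendsto' h2 h3 (fun N => fin_bound hS hM R K hK h _ _)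

lemma norm_e (hS : Idl S) (hM : Model S X e e') (m : ℕ) : ‖e m‖ ≤ 1 := by
  have h := norm_sum_le hM {m} (fun _ => 1) 1 zero_le_one (by
    have h2 := NB.of_l1 (S := S) hS (x := cut (↑({m} : Finset ℕ)) (fun _ => 1)) {m} (by
      intro i hi
      by_contra hc
      apply hi
      unfold cut
      rw [Set.indicator_of_notMem (by exact_mod_cast hc)])
    refine h2.mono ?_
    rw [Finset.sum_singleton]
    unfold cut
    rw [Set.indicator_of_mem (by simp)]
    simp)
  simpa using h

/-- the finite sections are onto -/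
lemma solve (hS : Idl S) (t : ℕ → ℕ → ℝ) (K : ℝ)
    (h : ∀ (F : Finset ℕ) (x : ℕ → ℝ) (b : ℝ), NB S (mv t F x) b →
      NB S (cut (↑F) x) (K * b)) (F : Finset ℕ) (y : ℕ → ℝ) :
    ∃ a : ℕ → ℝ, ∀ i ∈ F, mv t F a i = y i := by
  classical
  let L : (F → ℝ) →ₗ[ℝ] (F → ℝ) := Matrix.mulVecLin (Matrix.of fun i j : F => t i j)
  have hL : ∀ (a : F → ℝ) (i : F), L a i = ∑ j : F, t i j * a j := fun a i => rfl
  have hext : ∀ (a : F → ℝ) (i : F),
      mv t F (fun n => if hn : n ∈ F then a ⟨n, hn⟩ else 0) i = L a i := by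
    intro a i
    rw [mv_apply_of_mem _ _ _ _ i.2, hL, ← Finset.sum_coe_sort F]
    apply Finset.sum_congr rfl
    intro j _
    rw [dif_pos j.2]
  have hinj : Function.Injective L := by
    rw [← LinearMap.ker_eq_bot, LinearMap.ker_eq_bot']
    intro a ha
    have h0 : mv t F (fun n => if hn : n ∈ F then a ⟨n, hn⟩ else 0) = fun _ => 0 := by
      funext i
      by_cases hi : i ∈ F
      · rw [hext a ⟨i, hi⟩, ha]; rfl
      · rw [mv_apply_of_notMem _ _ _ _ hi]
    have h1 : NB S (mv t F (fun n => if hn : n ∈ F then a ⟨n, hn⟩ else 0)) 0 := by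
      rw [h0]; intro f _; rw [ev_zero_right]
    have h2 := h F _ _ h1
    funext i
    have h3 := h2.coord hS i
    unfold cut at h3
    rw [Set.indicator_of_mem (by exact_mod_cast i.2), mul_zero, dif_pos i.2] at h3
    exact abs_nonpos_iff.mp h3
  obtain ⟨a, ha⟩ := (LinearMap.injective_iff_surjective.mp hinj) (fun i : F => y i)
  refine ⟨fun n => if hn : n ∈ F then a ⟨n, hn⟩ else 0, fun i hi => ?_⟩
  rw [hext a ⟨i, hi⟩, ha]

lemma vanish (hS : Idl S) (hM : Model S X e e')
    (R : X →L[ℝ] X) (K : ℝ) (hK : 0 ≤ K)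
    (h : ∀ (F : Finset ℕ) (x : ℕ → ℝ) (b : ℝ), NB S (mv (fun i j => e' i (R (e j))) F x) b →
      NB S (cut (↑F) x) (K * b)) (g : X →L[ℝ] ℝ)
    (hsh : ∀ ε : ℝ, 0 < ε → ∃ M : ℕ, ∀ x : X, (∀ n, n < M → e' n x = 0) →
    |g x| ≤ ε * ‖x‖)
    (hg : ∀ x, g (R x) = 0) (m : ℕ) : g (e m) = 0 := by
  classical
  have hC : 0 < 1 + ‖R‖ * K := by
    have := mul_nonneg (norm_nonneg R) hK
    linarith
  have key : ∀ ε : ℝ, 0 < ε → |g (e m)| ≤ ε * (1 + ‖R‖ * K) := by
    intro ε hε
    obtain ⟨M, hMM⟩ := hsh ε hε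
    set F : Finset ℕ := Finset.range (max M (m + 1)) with hF
    have hmF : m ∈ F := by
      rw [hF, Finset.mem_range]
      exact lt_of_lt_of_le (Nat.lt_succ_self m) (le_max_right _ _)
    obtain ⟨a, ha⟩ := solve hS _ K h F (fun i => if i = m then 1 else 0)
    have h1 : NB S (mv (fun i j => e' i (R (e j))) F a) 1 := by
      have h2 := NB.of_l1 (S := S) hS (x := mv (fun i j => e' i (R (e j))) F a) {m} (by
        intro i hi
        by_contra hc
        apply hi
        by_cases hiF : i ∈ F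
        · rw [ha i hiF, if_neg (by simpa using hc)]
        · rw [mv_apply_of_notMem _ _ _ _ hiF])
      refine h2.mono ?_
      rw [Finset.sum_singleton, ha m hmF, if_pos rfl]
      simp
    have h3 := h F a 1 h1
    rw [mul_one] at h3
    have h4 := norm_sum_le hM F a K hK h3
    set w := ∑ j ∈ F, a j • e j with hw
    have h5 : ∀ n, n < M → e' n (e m - R w) = 0 := by
      intro n hn
      have hnF : n ∈ F := by
        rw [hF, Finset.mem_range]
        exact lt_of_lt_of_le hn (le_max_left _ _)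
      have h6 := ha n hnF
      rw [mv_apply_of_mem _ _ _ _ hnF] at h6
      rw [map_sub, hM.bio, hw, coord_R, h6]
      exact sub_self _
    have h7 := hMM _ h5
    rw [map_sub, hg, sub_zero] at h7
    refine h7.trans ?_
    apply mul_le_mul_of_nonneg_left _ hε.le
    calc ‖e m - R w‖ ≤ ‖e m‖ + ‖R w‖ := norm_sub_le _ _
      _ ≤ 1 + ‖R‖ * K := by
        apply add_le_add (norm_e hS hM m)
        exact (R.le_opNorm w).trans (mul_le_mul_of_nonneg_left h4 (norm_nonneg _))
  by_contra hne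
  have hpos : 0 < |g (e m)| := abs_pos.mpr hne
  have h1 := key (|g (e m)| / (2 * (1 + ‖R‖ * K))) (by positivity)
  have h2 : |g (e m)| / (2 * (1 + ‖R‖ * K)) * (1 + ‖R‖ * K) = |g (e m)| / 2 := by
    field_simp
  rw [h2] at h1
  linarith

theorem main : S_MATX → S_INV := by
  intro _ S X _ _ _ e e' hS hM hsh R K hK h
  have hb := bound hS hM R K hK h
  have hinj : ∀ x, R x = 0 → x = 0 := by
    intro x hx
    have := hb x
    rw [hx, norm_zero, mul_zero] at this
    exact norm_le_zero_iff.mp this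
  have hker : R.ker = ⊥ := by
    rw [eq_bot_iff]
    intro x hx
    exact hinj x (by simpa using hx)
  have hanti : AntilipschitzWith K.toNNReal R := by
    apply ContinuousLinearMap.antilipschitz_of_bound
    intro x
    rw [Real.coe_toNNReal K hK]
    exact hb x
  have hcl : IsClosed (Set.range R) := hanti.isClosed_range R.uniformContinuous
  have hrange : R.range = ⊤ := by
    rw [eq_top_iff]
    intro v _
    by_contra hv
    have hconv : Convex ℝ (Set.range R) := by
      have : Set.range R = (R.range : Set X) := by ext y; simp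
      rw [this]
      exact Submodule.convex _
    have hv' : v ∉ Set.range R := by
      intro hc; apply hv; obtain ⟨y, hy⟩ := hc; exact ⟨y, hy⟩
    obtain ⟨g, u, hg1, hg2⟩ := geometric_hahn_banach_closed_point hconv hcl hv'
    have hu : 0 < u := by
      have := hg1 (R 0) ⟨0, rfl⟩
      simpa using this
    have hg : ∀ x, g (R x) = 0 := by
      intro x
      by_contra hne
      have h1 := hg1 (R ((u / g (R x)) • x)) ⟨_, rfl⟩
      rw [map_smul, map_smul, smul_eq_mul, div_mul_cancel₀ _ hne] at h1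
      exact lt_irrefl _ h1
    have hge : ∀ m, g (e m) = 0 := vanish hS hM R K hK h g (hsh g) hg
    have hgv : g v = 0 := by
      have h1 := (g.continuous.tendsto v).comp (hM.exp v)
      have h2 : (fun N : ℕ => g (∑ n ∈ Finset.range N, e' n v • e n)) = fun _ => (0 : ℝ) := by
        funext N
        rw [map_sum]
        apply Finset.sum_eq_zero
        intro n _
        rw [map_smul, hge, smul_zero]
      have h3 : Tendsto (fun N : ℕ => g (∑ n ∈ Finset.range N, e' n v • e n)) atTop (𝓝 (g v)) := h1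
      rw [h2] at h3
      exact (tendsto_nhds_unique h3 tendsto_const_nhds)
    rw [hgv] at hg2
    linarith
  refine ⟨((ContinuousLinearEquiv.ofBijective R hker hrange).symm : X →L[ℝ] X), fun x => ?_⟩
  exact (ContinuousLinearEquiv.ofBijective R hker hrange).symm_apply_apply x

end Pool.Agent.W91.GZ.INV
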